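import Pool.Agent.P.MP_0ad50f_co.BP.Roots

/-! Bipartite graphs: the large signs. -/

namespace Pool.Agent.P.MP_0ad50f_co.BP

set_option linter.unusedSectionVars false

open Finset
open Pool.Agent.P.MP_0ad50f_co.D8
open Pool.Agent.P.MP_0ad50f_co.EV

variable {V : Type} [Fintype V] [DecidableEq V]

/-- active roots -/
def Act (E : Finset (V × V)) (S : Finset V) (M : Finset (V × V)) (ρ : V × V → ℤ) (t : V) : Prop :=
  t ∉ S ∧ 0 < deg (E \ M) t ∧ sm (E \ M) ρ t = 0

/-- vertices whose larger sign class is too large -/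
def Big (E M : Finset (V × V)) (ρ : V × V → ℤ) (t : V) : Prop :=
  ∃ r : ℤ, (r = 1 ∨ r = -1) ∧ (deg M t : ℤ) < r * sm (E \ M) ρ t

variable {E M : Finset (V × V)} {S : Finset V} {root hole : V → V} {rk : V → ℕ} {ρ : V × V → ℤ}

theorem Small.act (hs : Small E S M root ρ) {t : V} (ht : Act E S M ρ t) :
    ¬ Good (E \ M) Prod.fst t ∧ root t = t := by
  have h0 := ht.2.2
  rcases hs.val t ht.1 ht.2.1 with e | e | e
  · omega
  · omega
  · exact e.2

theorem Small.big (hs : Small E S M root ρ) {t : V} (ht : Big E M ρ t) :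
    t ∉ S ∧ ¬ Act E S M ρ t ∧ 0 < deg (E \ M) t := by
  obtain ⟨r, h1, h2⟩ := ht
  refine ⟨fun m => ?_, fun m => ?_, ?_⟩
  · rw [hs.zero t m] at h2
    omega
  · rw [m.2.2] at h2
    omega
  · have h3 := ma_cls hs.sgn h1 t
    have h4 : deg ((E \ M).filter fun a => ρ a = r) t ≤ deg (E \ M) t :=
      dg_mono _ (filter_subset _ _) t
    omega

theorem Ctx.tie (h : Ctx E S M) (hs : Small E S M root ρ) (t w : V) : ∃ x y, Big E M ρ t →
    x ≠ y ∧ (t, x) ∈ E \ M ∧ (t, y) ∈ E \ M ∧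
      (∀ r : ℤ, (r = 1 ∨ r = -1) → (deg M t : ℤ) < r * sm (E \ M) ρ t →
        r * sm (E \ M) ρ t ≤ 2 ∧ ρ (t, x) = r ∧ ρ (t, y) = r) ∧
      (Flex E M t ∧ deg (E \ M) t % 2 = 0 → x ≠ w ∧ y ≠ w) := by
  by_cases ht : Big E M ρ t
  swap
  · exact ⟨t, t, fun m => absurd m ht⟩
  obtain ⟨b1, -, b3⟩ := hs.big ht
  obtain ⟨r, h1, h2⟩ := ht
  have h3 := ma_cls hs.sgn h1 t
  have h4 := h.dd t
  have h5 := h.two t
  have h6 := hs.val t b1 b3
  obtain ⟨x, y, a1, a2, a3, a4⟩ := two_nb (K := (E \ M).filter fun a => ρ a = r) (v := t) w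
    (Flex E M t ∧ deg (E \ M) t % 2 = 0)
    (by rcases h1 with rfl | rfl <;> rcases h6 with e | e | ⟨e, -⟩ <;> omega)
    (fun ⟨p, q⟩ => by
      unfold Flex at p
      rcases h1 with rfl | rfl <;> rcases h6 with e | e | ⟨e, -⟩ <;> omega)
  rw [mem_filter] at a2 a3
  refine ⟨x, y, fun _ => ⟨a1, a2.1, a3.1, fun r' k1 k2 => ?_, a4⟩⟩
  rw [a2.2, a3.2]
  rcases h1 with rfl | rfl <;> rcases k1 with rfl | rfl <;> rcases h6 with e | e | ⟨e, -⟩ <;> omega

/-- the large signs -/
structure Large (E : Finset (V × V)) (S : Finset V) (M : Finset (V × V)) (ρ : V × V → ℤ)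
    (hole : V → V) (l : V × V → ℤ) : Prop where
  sgn : Sgn (E \ M) l
  maj : ∀ v (r : ℤ), (r = 1 ∨ r = -1) → r * sm (E \ M) ρ v ≤ deg M v ∨
    (r * sm (E \ M) ρ v ≤ 2 ∧ ∃ x y, (v, x) ∈ E \ M ∧ (v, y) ∈ E \ M ∧ ρ (v, x) = r ∧
      ρ (v, y) = r ∧ l (v, x) ≠ l (v, y))
  act : ∀ t, Act E S M ρ t → (2 * (deg E t : ℤ) + sm (E \ M) l t) % 4 = 0
  nbr : ∀ t s, Act E S M ρ t → (t, s) ∈ E → (2 * (deg E s : ℤ) + sm (E \ M) l s) % 4 = 2 ∨
    (Rig E S M s ∧ hole s = s ∧ (t, s) ∈ M)

theorem Ctx.large (h : Ctx E S M) (hr : Roots E S M root rk) (hs : Small E S M root ρ)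
    (hh : Holes E S M root ρ hole) : ∃ l, Large E S M ρ hole l := by
  classical
  have hy := h.sysD.sy
  let Fx : V → Prop := fun t => t ∉ S ∧ Flex E M t ∧ ¬ Act E S M ρ t
  let D' := (E \ M).filter fun a => ¬ Fx a.1 ∧ ¬ Fx a.2
  have hD' : D' ⊆ E \ M := filter_subset _ _
  have hav : ∀ t, ∃ w, ∀ s r, (s, t) ∈ E \ M → Act E S M ρ r → Reach D' Prod.fst r s →
      (w, t) ∈ E \ M ∧ ∃ r', Act E S M ρ r' ∧ Reach D' Prod.fst r' w := fun t => by
    by_cases e : ∃ w, (w, t) ∈ E \ M ∧ ∃ r', Act E S M ρ r' ∧ Reach D' Prod.fst r' w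
    · obtain ⟨w, hw⟩ := e
      exact ⟨w, fun _ _ _ _ _ => hw⟩
    · exact ⟨t, fun s r a b c => absurd ⟨s, a, r, b, c⟩ e⟩
  choose av hav using hav
  choose x y hxy using fun t => h.tie hs t (av t)
  let At : V × V → Prop := fun a => a.1 ∈ S ∨ Act E S M ρ a.1 ∨
    (Big E M ρ a.1 ∧ (a.2 = x a.1 ∨ a.2 = y a.1))
  let nd : V × V → V ⊕ (V × V) := fun a => if At a then Sum.inl a.1 else Sum.inr a
  have n1 : ∀ a, At a → nd a = Sum.inl a.1 := fun a ha => if_pos ha
  have n2 : ∀ a, ¬ At a → nd a = Sum.inr a := fun a ha => if_neg ha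
  have n3 : ∀ a v, nd a = Sum.inl v ↔ At a ∧ a.1 = v := fun a v => by
    by_cases e : At a
    · simp [n1 a e, e]
    · simp [n2 a e, e]
  let sd : V ⊕ (V × V) → V := Sum.elim id Prod.fst
  have hsd : ∀ a, sd (nd a) = a.1 := fun a => by
    by_cases e : At a
    · rw [n1 a e]; rfl
    · rw [n2 a e]; rfl
  have hsys : Sys (E \ M) nd := ⟨hy, fun a ha e => h.sysD.nl a ha (by rw [← hsd, e, hsd])⟩
  have f1 : ∀ v, (v ∈ S ∨ Act E S M ρ v) →
      (E \ M).filter (fun a => nd a = Sum.inl v) = (E \ M).filter fun a => a.1 = v :=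
    fun v hv => filter_congr fun a _ => by
      rw [n3]
      exact ⟨fun m => m.2, fun m => ⟨hv.elim (fun k => Or.inl (m ▸ k))
        fun k => Or.inr (Or.inl (m ▸ k)), m⟩⟩
  have f2 : ∀ v, Big E M ρ v →
      (E \ M).filter (fun a => nd a = Sum.inl v) = {(v, x v), (v, y v)} := fun v hv => by
    obtain ⟨b1, b2, -⟩ := hs.big hv
    obtain ⟨-, a2, a3, -⟩ := hxy v hv
    ext ⟨p, q⟩
    simp only [mem_filter, n3, mem_insert, mem_singleton, Prod.mk.injEq]
    constructor
    · rintro ⟨-, m, rfl⟩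
      exact (((m.resolve_left b1).resolve_left b2).2).imp (fun k => ⟨rfl, k⟩) fun k => ⟨rfl, k⟩
    · rintro (⟨rfl, rfl⟩ | ⟨rfl, rfl⟩)
      · exact ⟨a2, Or.inr (Or.inr ⟨hv, Or.inl rfl⟩), rfl⟩
      · exact ⟨a3, Or.inr (Or.inr ⟨hv, Or.inr rfl⟩), rfl⟩
  have hne : ∀ v, Big E M ρ v → (v, x v) ≠ (v, y v) := fun v hv e => (hxy v hv).1 (Prod.mk.inj e).2
  have hev : ∀ v, ¬ Odd (dg (E \ M) nd (Sum.inl v)) := fun v => by
    rw [Nat.odd_iff]
    unfold dg
    by_cases a : v ∈ S ∨ Act E S M ρ v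
    · rw [f1 v a]
      have : deg (E \ M) v % 2 = 0 :=
        a.elim h.evS fun k => even_of (hs.act k).1 (Reach.refl _ _ _)
      unfold deg dg at this
      omega
    · by_cases b : Big E M ρ v
      · rw [f2 v b, card_pair (hne v b)]
        omega
      · rw [filter_eq_empty_iff.2 fun c _ e => by
          obtain ⟨m, rfl⟩ := (n3 c v).1 e
          rcases m with m | m | m
          · exact a (Or.inl m)
          · exact a (Or.inr m)
          · exact b m.1]
        simp
  let tv : V → Fin 4 := fun v => if v ∈ S then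
      (if Rig E S M v ∧ hole v = v then 3 else
        if deg E v % 2 = 0 ∧ ∃ t, Act E S M ρ t ∧ (v, t) ∈ E \ M then 2 else 0)
    else if Act E S M ρ v ∧ deg E v % 2 = 1 then 2 else 0
  let ty : V ⊕ (V × V) → Fin 4 := fun n =>
    if Odd (dg (E \ M) nd n) then 1 else Sum.elim tv (fun _ => 0) n
  have tl : ∀ v, ty (Sum.inl v) = tv v := fun v => if_neg (hev v)
  have rigid : ∀ v w, (v, w) ∈ E \ M → ¬ Good (E \ M) Prod.fst v → ¬ Fx v → At (v, w) := by
    intro v w a b c
    by_cases c1 : v ∈ S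
    · exact Or.inl c1
    by_cases c2 : Act E S M ρ v
    · exact Or.inr (Or.inl c2)
    have c3 : ¬ Flex E M v := fun m => c ⟨c1, m, c2⟩
    unfold Flex at c3
    have c4 := even_of b (Reach.refl _ _ _)
    have c5 := deg_pos a
    have c6 : Big E M ρ v := by
      rcases hs.val v c1 c5 with e | ⟨-, e | e⟩ | e
      · omega
      · exact ⟨1, Or.inl rfl, by omega⟩
      · exact ⟨-1, Or.inr rfl, by omega⟩
      · exact absurd ⟨c1, c5, e.1⟩ c2
    obtain ⟨a1, a2, a3, -⟩ := hxy v c6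
    have c7 : ({x v, y v} : Finset V) = nb (E \ M) v := eq_of_subset_of_card_le
      (insert_subset (mem_nb.2 a2) (singleton_subset_iff.2 (mem_nb.2 a3)))
      (by rw [card_nb, card_pair a1]; omega)
    have c8 : w ∈ ({x v, y v} : Finset V) := c7 ▸ mem_nb.2 a
    exact Or.inr (Or.inr ⟨c6, by simpa using c8⟩)
  have L1 : ∀ r, Act E S M ρ r → ∀ s, Reach D' Prod.fst r s →
      Reach (E \ M) nd (Sum.inl r) (Sum.inl s) := fun r a s b => by
    induction b with
    | refl => exact Reach.refl _ _ _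
    | tail b1 b2 ih =>
      obtain ⟨⟨p, q⟩, c, rfl, rfl⟩ := b2
      obtain ⟨c1, c2, c3⟩ := mem_filter.1 c
      have c4 := h.bad (hs.act a).1 (Reach.mono hD' b1)
      have c5 := Reach.dart nd c1
      rw [n1 _ (rigid p q c1 c4 c2), Prod.swap_prod_mk,
        n1 _ (rigid q p (hy _ c1) (h.bad c4 (reach_adj c1)) c3)] at c5
      exact ih.trans c5
  have L2 : ∀ r, Act E S M ρ r → ∀ z, Reach (E \ M) Prod.fst r z →
      (Reach D' Prod.fst r z ∧ ¬ Fx z) ∨
        ∃ s t, Reach D' Prod.fst r s ∧ (s, t) ∈ E \ M ∧ Fx t := fun r a z b => by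
    induction b with
    | refl => exact Or.inl ⟨Reach.refl _ _ _, fun m => m.2.2 a⟩
    | tail _ b2 ih =>
      obtain ⟨⟨p, q⟩, c, rfl, rfl⟩ := b2
      rcases ih with ih | ih
      · by_cases e : Fx q
        · exact Or.inr ⟨p, q, ih.1, c, e⟩
        · exact Or.inl ⟨ih.1.trans (reach_adj (mem_filter.2 ⟨c, ih.2, e⟩)), e⟩
      · exact Or.inr ih
  have key : ∀ r, Act E S M ρ r →
      ∃ z, Reach (E \ M) nd (Sum.inl r) z ∧ (ty z = 1 ∨ ty z = 3) := fun r a => by
    obtain ⟨a1, a2⟩ := hs.act a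
    rcases hr.flex r a.2.1 a1 with b | ⟨z, z1, z2, z3, z4⟩
    · obtain ⟨b1, b2, -⟩ := hh.mem r b
      rcases L2 r a _ b2 with c | ⟨s, t, c1, c2, c3⟩
      · refine ⟨_, L1 r a _ c.1, Or.inr ?_⟩
        rw [tl]
        exact (if_pos b1).trans (if_pos ⟨h.rig b b2, (hh.con _ _ b2).symm⟩)
      · exact absurd c3.2.1 (b.2.2 t ((Reach.mono hD' c1).trans (reach_adj c2)) c3.1)
    · rcases L2 r a _ z1 with c | ⟨s, t, c1, c2, c3⟩
      · exact absurd ⟨z2, z3, fun m => z4 ((hs.act m).2.symm.trans (hr.con _ _ z1).1.symm)⟩ c.2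
      · obtain ⟨d1, r', d2, d3⟩ := hav t s r c2 a c1
        have d4 := (Reach.mono hD' c1).trans (reach_adj c2)
        obtain rfl : r = r' := by
          rw [← a2, ← (hs.act d2).2]
          exact (hr.con _ _ (d4.trans (((Reach.mono hD' d3).trans (reach_adj d1)).symm hy))).1
        have d5 : ¬ At (t, av t) := by
          rintro (m | m | ⟨m1, m2⟩)
          · exact c3.1 m
          · exact c3.2.2 m
          · have := (hxy t m1).2.2.2.2 ⟨c3.2.1, even_of a1 d4⟩
            exact m2.elim (fun k => this.1 k.symm) fun k => this.2 k.symm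
        have d6 := Reach.dart nd d1
        rw [n1 _ (Or.inl (h.toS (mem_sdiff.1 (hy _ d1)).1 c3.1)), Prod.swap_prod_mk,
          n2 _ d5] at d6
        refine ⟨_, (L1 r a _ d3).trans d6, Or.inl (if_pos ?_)⟩
        have d7 : (E \ M).filter (fun b => nd b = Sum.inr (t, av t)) = {(t, av t)} := by
          ext b
          rw [mem_filter, mem_singleton]
          refine ⟨fun ⟨_, m⟩ => ?_, fun m => by rw [m]; exact ⟨hy _ d1, n2 _ d5⟩⟩
          by_cases e : At b
          · rw [n1 b e] at m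
            exact absurd m (by simp)
          · rw [n2 b e] at m
            exact Sum.inr.inj m
        unfold dg
        rw [d7, card_singleton]
        exact odd_one
  obtain ⟨l, hl, hok⟩ := rho0 hsys (fun n => if sd n ∈ S then 1 else -1) (fun a ha => by
      have := h.bipD a ha
      simp only [hsd, Prod.fst_swap]
      by_cases e : a.1 ∈ S
      · simp [e, this.1 e]
      · have e2 : a.2 ∈ S := by_contra fun m => e (this.2 m)
        simp [e, e2]) (fun n => by split_ifs <;> simp) ty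
    (fun n => ⟨fun e => by
      by_contra a
      rcases n with v | b
      · simp only [tl, tv] at e
        split_ifs at e <;> exact absurd e (by decide)
      · simp only [ty, if_neg a, Sum.elim_inr] at e
        exact absurd e (by decide), fun a => if_pos a⟩) fun n e => by
      rcases n with v | b
      · simp only [tl, tv] at e
        split_ifs at e with e1 e2 e3 e4
        · exact absurd e (by decide)
        · obtain ⟨t, t1, t2⟩ := e3.2
          obtain ⟨z, z1, z2⟩ := key t t1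
          have d6 := Reach.dart nd t2
          rw [n1 _ (Or.inl e1), Prod.swap_prod_mk, n1 _ (Or.inr (Or.inl t1))] at d6
          exact ⟨z, d6.trans z1, z2⟩
        · exact absurd e (by decide)
        · exact key v e4.1
        · exact absurd e (by decide)
      · simp only [ty, Sum.elim_inr] at e
        split_ifs at e <;> exact absurd e (by decide)
  have hv : ∀ v, (v ∈ S ∨ Act E S M ρ v) → Ok (tv v) (sm (E \ M) l v) := fun v a => by
    have := hok (Sum.inl v)
    unfold sg at this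
    rwa [tl, f1 v a] at this
  refine ⟨l, hl, fun v r k => ?_, fun t a => ?_, fun t s a b => ?_⟩
  · refine (le_or_gt _ _).imp id fun m => ?_
    have b : Big E M ρ v := ⟨r, k, m⟩
    obtain ⟨b1, b2, -⟩ := hs.big b
    obtain ⟨-, a2, a3, a4, -⟩ := hxy v b
    obtain ⟨a5, a6, a7⟩ := a4 r k m
    refine ⟨a5, x v, y v, a2, a3, a6, a7, fun e => ?_⟩
    have c := (hok (Sum.inl v)).1
      ((tl v).trans ((if_neg b1).trans (if_neg fun m => b2 m.1)))
    unfold sg at c
    rw [f2 v b, sum_pair (hne v b), e] at c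
    have := (hl _ a3).2
    omega
  · have c := hv t (Or.inr a)
    by_cases e : deg E t % 2 = 1
    · have := c.2.2.1 ((if_neg a.1).trans (if_pos ⟨a, e⟩))
      omega
    · have := c.1 ((if_neg a.1).trans (if_neg fun m => e m.2))
      omega
  · have s1 := h.toS b a.1
    have c := hv s (Or.inl s1)
    by_cases e : Rig E S M s ∧ hole s = s
    · refine Or.inr ⟨e.1, e.2, by_contra fun m => ?_⟩
      have m1 := mem_sdiff.2 ⟨b, m⟩
      have m2 := (hh.mem s e.1).2.2
      rw [← (hr.con _ _ (reach_adj m1)).1, (hs.act a).2, e.2] at m2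
      exact m2 a.2.2 m1
    · left
      by_cases e' : deg E s % 2 = 0
      · have m : (s, t) ∉ M := fun m => by
          have := deg_pos m
          have := h.par s s1
          omega
        have := c.2.2.1 ((if_pos s1).trans ((if_neg e).trans
          (if_pos ⟨e', t, a, mem_sdiff.2 ⟨h.sys.sy _ b, m⟩⟩)))
        omega
      · have := c.1 ((if_pos s1).trans ((if_neg e).trans (if_neg fun m => e' m.1)))
        omega

end Pool.Agent.P.MP_0ad50f_co.BP
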