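import Pool.Agent.P.MP_0ad50f_co.BP.Large
import Pool.Agent.P.MP_0ad50f_co.SC.Main

/-! Bipartite graphs: assembly. -/

namespace Pool.Agent.P.MP_0ad50f_co.BP

set_option linter.unusedSectionVars false

open Finset
open Pool.Agent.P.MP_0ad50f_co.D8
open Pool.Agent.P.MP_0ad50f_co.EV

variable {V : Type} [Fintype V] [DecidableEq V]

/-- bipartite dart systems without cubic components -/
theorem core {E : Finset (V × V)} {S : Finset V} (hE : Sys E Prod.fst)
    (hb : ∀ a ∈ E, a.1 ∈ S ↔ a.2 ∉ S) (h2 : ∀ v, deg E v ≠ 1)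
    (h3 : ∀ a ∈ E, ∃ z, Reach E Prod.fst a.1 z ∧ deg E z ≠ 3) : ∃ c, Col E c := by
  classical
  obtain ⟨M, m1, m2, m3, m4⟩ := matching hE hb h2
  have h : Ctx E S M := ⟨hE, hb, h2, h3, m1, m2, m3, m4⟩
  obtain ⟨root, rk, hr⟩ := h.roots
  obtain ⟨ρ, hs⟩ := h.small hr
  obtain ⟨hole, hh⟩ := h.holes hr hs
  obtain ⟨l, hl⟩ := h.large hr hs hh
  have hy := h.sysD.sy
  obtain ⟨rep, hrep, hcon⟩ := rho_rep (nd := Prod.fst) hy
  have hpt : ∀ p, ∃ t, p ∈ S → ∀ t', (t', p) ∈ M → t' = t := fun p => by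
    by_cases e : ∃ t, (t, p) ∈ M
    · obtain ⟨t, ht⟩ := e
      refine ⟨t, fun hp t' ht' => one_nb (K := M) (v := p) ?_ (m2 _ ht') (m2 _ ht)⟩
      have := m3 p hp
      omega
    · exact ⟨p, fun _ t' ht' => absurd ⟨t', ht'⟩ e⟩
  choose pt hpt using hpt
  obtain ⟨s, hsg⟩ := signs rk (fun c => rep (pt (hole c)))
    (fun c x y => Rig E S M c → Act E S M ρ (pt (hole c)) → (pt (hole c), hole c) ∈ M →
      2 * (deg E (hole c) : ℤ) + x * sm (E \ M) l (hole c) ≠
        2 * (deg E (pt (hole c)) : ℤ) + y * sm (E \ M) l (pt (hole c)))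
    (fun c y hy' => by
      by_contra hno
      rw [not_or] at hno
      obtain ⟨k1, k2⟩ := hno
      simp only [Classical.not_imp, not_not] at k1 k2
      obtain ⟨a, b, d, k1⟩ := k1
      have k3 := k2.2.2.2
      have k4 := hl.act _ b
      have k5 := m3 _ (hh.mem c a).1
      have k6 : 0 < deg M (hole c) := deg_pos (m2 _ d)
      rcases hy' with rfl | rfl <;> omega)
    (fun c => by
      by_cases e : Rig E S M c ∧ Act E S M ρ (pt (hole c)) ∧ (pt (hole c), hole c) ∈ M
      · left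
        have k1 := (hh.mem c e.1).2.1
        rw [← (hr.con _ _ (hrep _)).2, (hr.con _ _ k1).2]
        exact hr.rank _ _ (by rw [(hs.act e.2.1).2]; exact e.2.2) (h.rig e.1 k1)
      · exact Or.inr fun _ _ a b d => absurd ⟨a, b, d⟩ e)
  have hsm : ∀ v, sm (E \ M) (fun a => s (rep a.1) * l a) v = s (rep v) * sm (E \ M) l v := by
    intro v
    unfold sm sg
    rw [mul_sum]
    exact sum_congr rfl fun a ha => by rw [← (mem_filter.1 ha).2]
  obtain ⟨c, c1, c2, c3⟩ := ma_core (lam := fun a => s (rep a.1) * l a) m1 m2 hs.sgn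
    (fun a ha => by
      have e : rep a.swap.1 = rep a.1 := (hcon _ _ (Reach.dart Prod.fst ha)).symm
      obtain ⟨k1, k2⟩ := hl.sgn a ha
      refine ⟨by simp only [e, k1], ?_⟩
      rcases (hsg (rep a.1)).1 with k3 | k3 <;> rcases k2 with k2 | k2 <;>
        simp only [k3, k2] <;> simp) m4
    fun v r k => (hl.maj v r k).imp id fun ⟨a1, x, y, a2, a3, a4, a5, a6⟩ =>
      ⟨a1, x, y, a2, a3, a4, a5, fun e => a6 (by
        rcases (hsg (rep v)).1 with k3 | k3 <;> simp only [k3] at e <;> omega)⟩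
  have sep : ∀ t p, t ∉ S → (t, p) ∈ E →
      ∑ b ∈ E.filter (fun b => b.1 = t), c b ≠ ∑ b ∈ E.filter (fun b => b.1 = p), c b := by
    intro t p ht ha e
    have e1 := c2 t
    have e2 := c2 p
    have hp := h.toS ha ht
    rw [e, e2, hsm, hsm, hs.zero p hp] at e1
    have k1 := h.dd t
    have k2 := m4 t
    have k3 := deg_pos ha
    have k4 : 0 < deg (E \ M) t := by omega
    by_cases a : Act E S M ρ t
    · have k5 := hl.act t a
      have k6 := a.2.2
      rcases hl.nbr t p a ha with k7 | ⟨k7, k8, k9⟩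
      · rcases (hsg (rep t)).1 with k | k <;> rcases (hsg (rep p)).1 with k' | k' <;>
          rw [k, k'] at e1 <;> omega
      · have k10 : hole (rep p) = p := (hh.con _ _ (hrep p)).symm.trans k8
        have k11 := (hsg (rep p)).2
        simp only [k10, ← hpt p hp t k9] at k11
        exact k11 (h.rig k7 (hrep p)) a k9 (by linarith)
    · rcases hs.val t ht k4 with k | k | k
      · omega
      · omega
      · exact a ⟨ht, k4, k.1⟩
  refine ⟨c, c1, fun a ha => ?_, c3⟩
  by_cases e : a.1 ∈ S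
  · exact (sep _ _ (h.toT ha e) (hE.sy a ha)).symm
  · exact sep _ _ e ha

/-- colourings of the two parts of a closed splitting combine -/
theorem glue {E : Finset (V × V)} (K : V → Prop) [DecidablePred K]
    (hK : ∀ a ∈ E, K a.1 ↔ K a.2) {c1 c2 : V × V → ℕ} (p : Col (E.filter fun a => K a.1) c1)
    (q : Col (E.filter fun a => ¬ K a.1) c2) : ∃ c, Col E c := by
  have i1 : ∀ (L : V → Prop) [DecidablePred L] (v : V), L v → E.filter (fun b => b.1 = v) =
      (E.filter fun a => L a.1).filter (fun b => b.1 = v) := fun L _ v hv => by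
    ext b
    simp only [mem_filter]
    exact ⟨fun h => ⟨⟨h.1, h.2 ▸ hv⟩, h.2⟩, fun h => ⟨h.1.1, h.2⟩⟩
  have s1 : ∀ v, K v → ∑ b ∈ E.filter (fun b => b.1 = v), (if K b.1 then c1 b else c2 b) =
      ∑ b ∈ (E.filter fun a => K a.1).filter (fun b => b.1 = v), c1 b := fun v hv => by
    rw [i1 K v hv]
    exact sum_congr rfl fun b hb => if_pos (mem_filter.1 (mem_filter.1 hb).1).2
  have s2 : ∀ v, ¬ K v → ∑ b ∈ E.filter (fun b => b.1 = v), (if K b.1 then c1 b else c2 b) =
      ∑ b ∈ (E.filter fun a => ¬ K a.1).filter (fun b => b.1 = v), c2 b := fun v hv => by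
    rw [i1 (fun w => ¬ K w) v hv]
    exact sum_congr rfl fun b hb => if_neg (mem_filter.1 (mem_filter.1 hb).1).2
  refine ⟨fun a => if K a.1 then c1 a else c2 a, fun a ha => ?_, fun a ha => ?_, fun v k => ?_⟩
  · by_cases h : K a.1
    · simp only [Prod.fst_swap, if_pos h, if_pos ((hK a ha).1 h)]
      exact p.1 a (mem_filter.2 ⟨ha, h⟩)
    · simp only [Prod.fst_swap, if_neg h, if_neg fun m => h ((hK a ha).2 m)]
      exact q.1 a (mem_filter.2 ⟨ha, h⟩)
  · by_cases h : K a.1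
    · rw [s1 _ h, s1 _ ((hK a ha).1 h)]
      exact p.2.1 a (mem_filter.2 ⟨ha, h⟩)
    · rw [s2 _ h, s2 _ fun m => h ((hK a ha).2 m)]
      exact q.2.1 a (mem_filter.2 ⟨ha, h⟩)
  · beta_reduce
    by_cases h : K v
    · refine le_trans (Nat.mul_le_mul_left 2 (card_le_card fun b hb => ?_))
        ((p.2.2 v k).trans (dg_mono _ (filter_subset _ _) v))
      simp only [mem_filter] at hb ⊢
      obtain ⟨⟨x, y⟩, rfl⟩ := hb
      exact ⟨⟨⟨x, h⟩, by rwa [if_pos h] at y⟩, rfl⟩
    · refine le_trans (Nat.mul_le_mul_left 2 (card_le_card fun b hb => ?_))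
        ((q.2.2 v k).trans (dg_mono _ (filter_subset _ _) v))
      simp only [mem_filter] at hb ⊢
      obtain ⟨⟨x, y⟩, rfl⟩ := hb
      exact ⟨⟨⟨x, h⟩, by rwa [if_neg h] at y⟩, rfl⟩

theorem fib {G : SimpleGraph V} [DecidableRel G.Adj] {E : Finset (V × V)}
    (mE : ∀ a : V × V, a ∈ E ↔ G.Adj a.1 a.2) (v : V) : E.filter (fun b => b.1 = v) =
      (G.neighborFinset v).map ⟨fun w => (v, w), fun _ _ h => (Prod.ext_iff.1 h).2⟩ := by
  ext ⟨p, q⟩
  simp only [mem_filter, mE, mem_map, SimpleGraph.mem_neighborFinset]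
  constructor
  · rintro ⟨h, rfl⟩
    exact ⟨q, h, rfl⟩
  · rintro ⟨w, h, e⟩
    obtain ⟨rfl, rfl⟩ : v = p ∧ w = q := Prod.mk.inj e
    exact ⟨h, rfl⟩

theorem fib_deg {G : SimpleGraph V} [DecidableRel G.Adj] {E : Finset (V × V)}
    (mE : ∀ a : V × V, a ∈ E ↔ G.Adj a.1 a.2) (v : V) : deg E v = G.degree v := by
  unfold deg dg
  rw [fib mE, card_map, SimpleGraph.card_neighborFinset_eq_degree]

/-- cubic dart systems -/
theorem cubic {E : Finset (V × V)} (hE : Sys E Prod.fst) (h3 : ∀ v, deg E v = 0 ∨ deg E v = 3) :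
    ∃ c, Col E c := by
  let G : SimpleGraph V := ⟨fun u v => (u, v) ∈ E, ⟨fun _ _ h => hE.sy _ h⟩,
    ⟨fun _ h => hE.nl _ h rfl⟩⟩
  let _i : DecidableRel G.Adj := fun u v => inferInstanceAs (Decidable ((u, v) ∈ E))
  have mE : ∀ a : V × V, a ∈ E ↔ G.Adj a.1 a.2 := fun a => Iff.rfl
  have hd := fib_deg mE
  obtain ⟨c, h1, hs, hp⟩ := Pool.Agent.P.MP_0ad50f_co.SC.main V G
    (fun v => by have := h3 v; have := hd v; omega) fun u v h => Or.inl (by
      have := h3 u
      have := hd u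
      have : 0 < deg E u := deg_pos (x := v) h
      omega)
  refine ⟨fun a => c s(a.1, a.2), fun a ha => ⟨by simp only [Prod.fst_swap, Prod.snd_swap,
    Sym2.eq_swap], h1 _ ha⟩, fun a ha => ?_, fun v k => ?_⟩
  · rw [fib mE, fib mE, sum_map, sum_map]
    exact hs _ _ ha
  · have k1 : deg (E.filter fun b => c s(b.1, b.2) = k) v ≤ deg E v :=
      dg_mono _ (filter_subset _ _) v
    have k2 : deg (E.filter fun b => c s(b.1, b.2) = k) v ≤ 1 := by
      refine le_trans (le_of_eq ?_) (hp v k)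
      unfold deg dg
      rw [filter_comm, fib mE, filter_map, card_map]
      rfl
    have := h3 v
    beta_reduce
    omega

theorem colouring {E : Finset (V × V)} {S : Finset V} (hE : Sys E Prod.fst)
    (hb : ∀ a ∈ E, a.1 ∈ S ↔ a.2 ∉ S) (h2 : ∀ v, deg E v ≠ 1) : ∃ c, Col E c := by
  classical
  let K : V → Prop := fun v => ∀ z, Reach E Prod.fst v z → deg E z = 3
  have hK : ∀ a ∈ E, K a.1 ↔ K a.2 := fun a ha =>
    ⟨fun h z hz => h z ((Reach.dart Prod.fst ha).trans hz),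
      fun h z hz => h z ((Reach.dart Prod.fst (hE.sy a ha)).trans hz)⟩
  have part : ∀ (L : V → Prop) [DecidablePred L], (∀ a ∈ E, L a.1 → L a.2) →
      Sys (E.filter fun a => L a.1) Prod.fst ∧ ∀ v,
        (L v → deg (E.filter fun a => L a.1) v = deg E v) ∧
        (¬ L v → deg (E.filter fun a => L a.1) v = 0) := fun L _ hL =>
    ⟨hE.mono (filter_subset _ _) fun a ha => mem_filter.2 ⟨hE.sy a (mem_filter.1 ha).1,
      hL a (mem_filter.1 ha).1 (mem_filter.1 ha).2⟩, fun v => ⟨fun hv => congrArg card (by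
        ext b
        simp only [mem_filter]
        exact ⟨fun h => ⟨h.1.1, h.2⟩, fun h => ⟨⟨h.1, h.2 ▸ hv⟩, h.2⟩⟩),
      fun hv => deg_zero fun x hx => hv (mem_filter.1 hx).2⟩⟩
  obtain ⟨p1, p2⟩ := part K fun a ha => (hK a ha).1
  obtain ⟨q1, q2⟩ := part (fun v => ¬ K v) fun a ha h m => h ((hK a ha).2 m)
  obtain ⟨c1, p⟩ := cubic p1 fun v => by
    by_cases h : K v
    · exact Or.inr (((p2 v).1 h).trans (h v (Reach.refl _ _ _)))
    · exact Or.inl ((p2 v).2 h)
  obtain ⟨c2, q⟩ := core (S := S) q1 (fun a ha => hb a (mem_filter.1 ha).1) (fun v => by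
      by_cases h : K v
      · rw [(q2 v).2 (not_not.2 h)]
        omega
      · rw [(q2 v).1 h]
        exact h2 v) fun a ha => by
    have h := (mem_filter.1 ha).2
    obtain ⟨z, z1, z2⟩ : ∃ z, Reach E Prod.fst a.1 z ∧ deg E z ≠ 3 := by
      by_contra m
      exact h fun z hz => by_contra fun e => m ⟨z, hz, e⟩
    have hz : ∀ w, Reach E Prod.fst a.1 w →
        ¬ K w ∧ Reach (E.filter fun a => ¬ K a.1) Prod.fst a.1 w := fun w hw => by
      induction hw with
      | refl => exact ⟨h, Reach.refl _ _ _⟩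
      | tail _ hs ih =>
        obtain ⟨b, hb, rfl, rfl⟩ := hs
        exact ⟨fun m => ih.1 ((hK b hb).2 m),
          ih.2.trans (Reach.dart Prod.fst (mem_filter.2 ⟨hb, ih.1⟩))⟩
    exact ⟨z, (hz z z1).2, by rwa [(q2 z).1 (hz z z1).1]⟩
  exact glue K hK p q

theorem main (G : SimpleGraph V) [DecidableRel G.Adj] (hb : G.Colorable 2)
    (hG : ∀ v, 2 ≤ G.degree v) :
    ∃ c : Sym2 V → ℕ, (∀ e ∈ G.edgeSet, 1 ≤ c e ∧ c e ≤ 5) ∧
      (∀ u v, G.Adj u v →
        ∑ w ∈ G.neighborFinset u, c s(u, w) ≠ ∑ w ∈ G.neighborFinset v, c s(v, w)) ∧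
      ∀ v a, 2 * ((G.neighborFinset v).filter fun w => c s(v, w) = a).card ≤ G.degree v := by
  let E : Finset (V × V) := univ.filter fun a => G.Adj a.1 a.2
  have mE : ∀ a : V × V, a ∈ E ↔ G.Adj a.1 a.2 := fun a => by simp [E]
  have hE : Sys E Prod.fst :=
    ⟨fun a ha => (mE _).2 ((mE a).1 ha).symm, fun a ha => ((mE a).1 ha).ne'⟩
  have hf := fib mE
  have hd := fib_deg mE
  obtain ⟨C⟩ := hb
  obtain ⟨c, h1, h2, h3⟩ := colouring (S := univ.filter fun v => C v = 0) hE (fun a ha => by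
      have := C.valid ((mE a).1 ha)
      simp only [mem_filter, mem_univ, true_and]
      exact (by decide : ∀ x y : Fin 2, x ≠ y → (x = 0 ↔ ¬ y = 0)) _ _ this) fun v => by
    have := hG v
    have := hd v
    omega
  let c' : Sym2 V → ℕ := Sym2.lift ⟨fun u w => max (c (u, w)) (c (w, u)), fun _ _ => max_comm _ _⟩
  have hc : ∀ u w, G.Adj u w → c' s(u, w) = c (u, w) := fun u w h => by
    have := (h1 (u, w) ((mE _).2 h)).1
    simp only [Prod.swap_prod_mk] at this
    simp [c', this]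
  have hs : ∀ u, ∑ w ∈ G.neighborFinset u, c' s(u, w) = ∑ b ∈ E.filter (fun b => b.1 = u), c b :=
    fun u => by
      rw [hf, sum_map]
      exact sum_congr rfl fun w hw => hc u w (by simpa using hw)
  refine ⟨c', fun e he => ?_, fun u v h => ?_, fun v a => ?_⟩
  · induction e using Sym2.ind with
    | _ u w =>
      rw [hc u w he]
      exact (h1 (u, w) ((mE _).2 he)).2
  · rw [hs, hs]
    exact h2 (u, v) ((mE _).2 h)
  · have := h3 v a
    rw [hd] at this
    refine le_trans (le_of_eq ?_) this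
    unfold deg dg
    rw [filter_comm, hf, filter_map, card_map]
    congr 2
    exact filter_congr fun w hw => by
      rw [hc v w (by simpa using hw)]
      rfl

end Pool.Agent.P.MP_0ad50f_co.BP
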