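import Pool.Agent.P.MP_0ad50f_co.BP.Tools

/-! Bipartite graphs: the edges of colour 3, roots, small signs and holes. -/

namespace Pool.Agent.P.MP_0ad50f_co.BP

set_option linter.unusedSectionVars false

open Finset
open Pool.Agent.P.MP_0ad50f_co.D8
open Pool.Agent.P.MP_0ad50f_co.EV

variable {V : Type} [Fintype V] [DecidableEq V]

theorem matching {E : Finset (V × V)} {S : Finset V} (hE : Sys E Prod.fst)
    (hb : ∀ a ∈ E, a.1 ∈ S ↔ a.2 ∉ S) (h2 : ∀ v, deg E v ≠ 1) :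
    ∃ M ⊆ E, Sy M ∧ (∀ s ∈ S, deg M s = deg E s % 2) ∧ ∀ v, deg M v ≤ deg E v / 2 := by
  let G := S.filter fun s => deg E s % 2 = 1
  have hG : ∀ s, s ∈ G ↔ s ∈ S ∧ deg E s % 2 = 1 := fun s => mem_filter
  obtain ⟨k, hk, hc⟩ := in_hall G (E.filter fun a => a.1 ∈ S) Prod.fst (fun t => deg E t / 2)
    (fun g hg => by
      obtain ⟨g1, g2⟩ := (hG g).1 hg
      have h3 : deg E g ≤ ((E.filter fun a => a.1 ∈ S).filter fun a => a.1 = g).card :=
        card_le_card fun a ha => by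
          obtain ⟨a1, a2⟩ := mem_filter.1 ha
          exact mem_filter.2 ⟨mem_filter.2 ⟨a1, a2 ▸ g1⟩, a2⟩
      have := h2 g
      omega)
    (fun t => by
      have h3 : ((E.filter fun a => a.1 ∈ S).filter fun a => a.2 = t).card ≤ deg E t :=
        card_le_card_of_injOn Prod.swap (fun a ha => by
          obtain ⟨a1, a2⟩ := mem_filter.1 (mem_coe.1 ha)
          exact mem_coe.2 (mem_filter.2 ⟨hE.sy a (mem_filter.1 a1).1, a2⟩))
          fun _ _ _ _ e => Prod.swap_injective e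
      have := h2 t
      omega)
  let M := E.filter fun a => (a.1 ∈ G ∧ k a.1 = a) ∨ (a.2 ∈ G ∧ k a.2 = a.swap)
  have hM : ∀ a, a ∈ M ↔ a ∈ E ∧ ((a.1 ∈ G ∧ k a.1 = a) ∨ (a.2 ∈ G ∧ k a.2 = a.swap)) :=
    fun a => mem_filter
  have hS : ∀ s ∈ S, deg M s = deg E s % 2 := fun s hs => by
    have h1 : ∀ x, (s, x) ∈ M → s ∈ G ∧ k s = (s, x) := fun x hx =>
      ((hM _).1 hx).2.resolve_right fun m => (hb _ ((hM _).1 hx).1).1 hs ((hG _).1 m.1).1
    by_cases hg : s ∈ G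
    · have h3 : deg M s ≤ 1 := deg_le_one fun x y hx hy =>
        (Prod.mk.inj ((h1 x hx).2.symm.trans (h1 y hy).2)).2
      obtain ⟨k1, k2⟩ := hk s hg
      have h4 : 0 < deg M s := dg_pos.2 ⟨k s, (hM _).2 ⟨(mem_filter.1 k1).1,
        Or.inl ⟨k2.symm ▸ hg, by rw [k2]⟩⟩, k2⟩
      have := ((hG s).1 hg).2
      omega
    · have h3 : deg M s = 0 := deg_zero fun x hx => hg (h1 x hx).1
      have : ¬ deg E s % 2 = 1 := fun m => hg ((hG s).2 ⟨hs, m⟩)
      omega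
  refine ⟨M, filter_subset _ _, fun a ha => ?_, hS, fun v => ?_⟩
  · obtain ⟨a1, a2⟩ := (hM a).1 ha
    exact (hM _).2 ⟨hE.sy a a1, a2.symm⟩
  · by_cases hv : v ∈ S
    · have := hS v hv
      have := h2 v
      omega
    · refine le_trans ?_ (hc v)
      refine card_le_card_of_injOn Prod.snd (fun a ha => ?_) fun a ha b hb e => ?_
      · obtain ⟨a1, a2⟩ := mem_filter.1 (mem_coe.1 ha)
        have a3 := ((hM a).1 a1).2.resolve_left fun m => hv (a2 ▸ ((hG _).1 m.1).1)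
        exact mem_coe.2 (mem_filter.2 ⟨a3.1, by rw [a3.2]; exact a2⟩)
      · exact Prod.ext ((mem_filter.1 (mem_coe.1 ha)).2.trans
          (mem_filter.1 (mem_coe.1 hb)).2.symm) e

/-- the graph, its first side and the edges of colour 3 -/
structure Ctx (E : Finset (V × V)) (S : Finset V) (M : Finset (V × V)) : Prop where
  sys : Sys E Prod.fst
  bip : ∀ a ∈ E, a.1 ∈ S ↔ a.2 ∉ S
  two : ∀ v, deg E v ≠ 1
  cub : ∀ a ∈ E, ∃ z, Reach E Prod.fst a.1 z ∧ deg E z ≠ 3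
  sub : M ⊆ E
  sy : Sy M
  par : ∀ s ∈ S, deg M s = deg E s % 2
  load : ∀ v, deg M v ≤ deg E v / 2

/-- flexible vertices -/
def Flex (E M : Finset (V × V)) (t : V) : Prop := 4 ≤ deg (E \ M) t ∨ 2 ≤ deg M t

/-- the component has edges, even degrees and no flexible vertex on the second side -/
def Rig (E : Finset (V × V)) (S : Finset V) (M : Finset (V × V)) (x : V) : Prop :=
  0 < deg (E \ M) x ∧ ¬ Good (E \ M) Prod.fst x ∧
    ∀ t, Reach (E \ M) Prod.fst x t → t ∉ S → ¬ Flex E M t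

variable {E M : Finset (V × V)} {S : Finset V}

theorem Ctx.sysD (h : Ctx E S M) : Sys (E \ M) Prod.fst :=
  h.sys.mono sdiff_subset (h.sys.sy.sdiff h.sy)

theorem Ctx.dd (h : Ctx E S M) (v : V) : deg (E \ M) v + deg M v = deg E v := dg_sdiff _ h.sub v

theorem Ctx.evS (h : Ctx E S M) {s : V} (hs : s ∈ S) : deg (E \ M) s % 2 = 0 := by
  have := h.dd s
  have := h.par s hs
  omega

theorem Ctx.bipD (h : Ctx E S M) : ∀ a ∈ E \ M, a.1 ∈ S ↔ a.2 ∉ S :=
  fun a ha => h.bip a (mem_sdiff.1 ha).1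

theorem Ctx.toS (h : Ctx E S M) {t s : V} (ha : (t, s) ∈ E) (ht : t ∉ S) : s ∈ S :=
  by_contra fun m => ht ((h.bip _ ha).2 m)

theorem Ctx.toT (h : Ctx E S M) {s t : V} (ha : (s, t) ∈ E) (hs : s ∈ S) : t ∉ S :=
  (h.bip _ ha).1 hs

theorem Ctx.bad (_h : Ctx E S M) {x y : V} (hx : ¬ Good (E \ M) Prod.fst x)
    (hxy : Reach (E \ M) Prod.fst x y) : ¬ Good (E \ M) Prod.fst y :=
  fun m => hx (Good.of_reach hxy m)

theorem Ctx.rig (h : Ctx E S M) {x y : V} (hx : Rig E S M x)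
    (hxy : Reach (E \ M) Prod.fst x y) : Rig E S M y :=
  ⟨reach_pos h.sysD.sy hxy hx.1, h.bad hx.2.1 hxy, fun t ht => hx.2.2 t (hxy.trans ht)⟩

theorem Ctx.rigT (_h : Ctx E S M) {t : V} (hx : Rig E S M t) (ht : t ∉ S) :
    deg (E \ M) t = 2 ∧ deg M t ≤ 1 := by
  have h1 := hx.1
  have h2 := even_of hx.2.1 (Reach.refl _ _ _)
  have h3 := hx.2.2 t (Reach.refl _ _ _) ht
  unfold Flex at h3
  omega

theorem one_nb {K : Finset (V × V)} {v x y : V} (h : deg K v ≤ 1) (hx : (v, x) ∈ K)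
    (hy : (v, y) ∈ K) : x = y :=
  (Prod.mk.inj (in_only (R := K) (a := (v, y)) h hy hx rfl)).2

/-- a closed set of rigid vertices has a vertex of the second side without partner inside -/
theorem Ctx.exit (h : Ctx E S M) (X : Finset V) (hX : ∀ a ∈ E \ M, a.1 ∈ X → a.2 ∈ X)
    (hR : ∀ x ∈ X, Rig E S M x) (hne : X.Nonempty) :
    ∃ t ∈ X, t ∉ S ∧ ∀ s ∈ X, (t, s) ∉ M := by
  by_contra hno
  have h1 : ∀ t, ∃ s, t ∈ X → t ∉ S → s ∈ X ∧ (t, s) ∈ M := fun t => by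
    by_contra h1
    refine hno ⟨t, ?_, ?_, fun s hs m => h1 ⟨s, fun _ _ => ⟨hs, m⟩⟩⟩
    · exact by_contra fun m => h1 ⟨t, fun e => absurd e m⟩
    · exact fun m => h1 ⟨t, fun _ e => absurd m e⟩
  choose m hm using h1
  have hM1 : ∀ s ∈ S, deg M s ≤ 1 := fun s hs => by
    have := h.par s hs
    omega
  have hmS : ∀ t ∈ X, t ∉ S → m t ∈ S := fun t a b => h.toS (h.sub (hm t a b).2) b
  have himg : (X.filter (· ∉ S)).image m ⊆ X.filter (· ∈ S) := fun s hs => by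
    obtain ⟨t, ht, rfl⟩ := mem_image.1 hs
    obtain ⟨a, b⟩ := mem_filter.1 ht
    exact mem_filter.2 ⟨(hm t a b).1, hmS t a b⟩
  have hcard : ((X.filter (· ∉ S)).image m).card = (X.filter (· ∉ S)).card :=
    card_image_of_injOn fun t ht t' ht' e => by
      obtain ⟨a, b⟩ := mem_filter.1 (mem_coe.1 ht)
      obtain ⟨a', b'⟩ := mem_filter.1 (mem_coe.1 ht')
      exact one_nb (hM1 _ (hmS t a b)) (h.sy _ (hm t a b).2) (e ▸ h.sy _ (hm t' a' b').2)
  have hsum := dc2 h.sysD.sy h.bipD (f := fun _ => 1) (fun _ _ => rfl) X hX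
  simp only [sm_const (f := fun _ => (1 : ℤ)) (c := 1) fun _ _ => rfl, one_mul] at hsum
  have hsum' : ∑ z ∈ X.filter (· ∈ S), deg (E \ M) z = 2 * (X.filter (· ∉ S)).card := by
    have : ∑ z ∈ X.filter (· ∉ S), deg (E \ M) z = 2 * (X.filter (· ∉ S)).card := by
      rw [sum_congr rfl fun t ht => (h.rigT (hR t (mem_filter.1 ht).1) (mem_filter.1 ht).2).1,
        sum_const, smul_eq_mul, mul_comm]
    rw [← this]
    exact_mod_cast hsum
  have hge : ∀ s ∈ X.filter (· ∈ S), 2 ≤ deg (E \ M) s := fun s hs => by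
    have := (hR s (mem_filter.1 hs).1).1
    have := h.evS (mem_filter.1 hs).2
    omega
  have hle := card_le_card himg
  have h2 : ∑ _z ∈ X.filter (· ∈ S), 2 = 2 * (X.filter (· ∈ S)).card := by
    rw [sum_const, smul_eq_mul, mul_comm]
  have h3 := sum_le_sum hge
  have heq := eq_of_subset_of_card_le himg (by omega)
  have h4 := (sum_eq_sum_iff_of_le hge).1 (by omega)
  have hpre : ∀ s ∈ X, s ∈ S → ∃ t ∈ X, (s, t) ∈ M := fun s a b => by
    obtain ⟨t, ht, rfl⟩ := mem_image.1 (heq ▸ mem_filter.2 ⟨a, b⟩ :)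
    obtain ⟨a', b'⟩ := mem_filter.1 ht
    exact ⟨t, a', h.sy _ (hm t a' b').2⟩
  have hcub : ∀ v ∈ X, deg E v = 3 := fun v hv => by
    have := h.dd v
    by_cases hs : v ∈ S
    · obtain ⟨t, -, ht⟩ := hpre v hv hs
      have := deg_pos ht
      have := hM1 v hs
      have := h4 v (mem_filter.2 ⟨hv, hs⟩)
      omega
    · have := deg_pos (hm v hv hs).2
      have := h.rigT (hR v hv) hs
      omega
  have hcl : ∀ a ∈ E, a.1 ∈ X → a.2 ∈ X := fun ⟨v, w⟩ ha hv => by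
    by_cases hM : (v, w) ∈ M
    · by_cases hs : v ∈ S
      · obtain ⟨t, a1, a2⟩ := hpre v hv hs
        exact one_nb (hM1 v hs) a2 hM ▸ a1
      · exact one_nb (h.rigT (hR v hv) hs).2 (hm v hv hs).2 hM ▸ (hm v hv hs).1
    · exact hX _ (mem_sdiff.2 ⟨ha, hM⟩) hv
  obtain ⟨x, hx⟩ := hne
  obtain ⟨w, hw⟩ := pos_nb (hR x hx).1
  obtain ⟨z, hz, hz'⟩ := h.cub _ (mem_sdiff.1 hw).1
  refine hz' (hcub z ?_)
  clear hz'
  induction hz with
  | refl => exact hx
  | tail _ hs ih =>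
    obtain ⟨a, ha, rfl, rfl⟩ := hs
    exact hcl a ha ih

/-- roots and ranks of the components with even degrees -/
structure Roots (E : Finset (V × V)) (S : Finset V) (M : Finset (V × V)) (root : V → V)
    (rk : V → ℕ) : Prop where
  con : ∀ x y, Reach (E \ M) Prod.fst x y → root x = root y ∧ rk x = rk y
  mem : ∀ x, 0 < deg (E \ M) x → ¬ Good (E \ M) Prod.fst x →
    root x ∉ S ∧ Reach (E \ M) Prod.fst x (root x)
  flex : ∀ x, 0 < deg (E \ M) x → ¬ Good (E \ M) Prod.fst x → Rig E S M x ∨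
    ∃ z, Reach (E \ M) Prod.fst x z ∧ z ∉ S ∧ Flex E M z ∧ z ≠ root x
  rank : ∀ x s, (root x, s) ∈ M → Rig E S M s → rk x < rk s

theorem Ctx.roots (h : Ctx E S M) : ∃ root rk, Roots E S M root rk := by
  classical
  have hy := h.sysD.sy
  obtain ⟨rep, hrep, hcon⟩ := rho_rep (nd := Prod.fst) hy
  have hrr : ∀ x, rep (rep x) = rep x := fun x => (hcon _ _ (hrep x)).symm
  obtain ⟨r0, k0, h0⟩ := ord (fun c t => t ∉ S ∧ Reach (E \ M) Prod.fst c t)
    (fun t c => ∃ s, (t, s) ∈ M ∧ rep s = c) _ (univ.filter fun c => rep c = c ∧ Rig E S M c) rfl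
    fun U hU ⟨c0, hc0⟩ => by
      obtain ⟨t, t1, t2, t3⟩ := h.exit (univ.filter fun v => rep v ∈ U)
        (fun a ha m => mem_filter.2 ⟨mem_univ _, hcon _ _ (reach_adj ha) ▸ (mem_filter.1 m).2⟩)
        (fun x hx => h.rig (mem_filter.1 (hU (mem_filter.1 hx).2)).2.2 ((hrep x).symm hy))
        ⟨c0, mem_filter.2 ⟨mem_univ _, (mem_filter.1 (hU hc0)).2.1.symm ▸ hc0⟩⟩
      exact ⟨rep t, (mem_filter.1 t1).2, t, ⟨t2, (hrep t).symm hy⟩, fun c' hc' ⟨s, s1, s2⟩ =>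
        t3 s (mem_filter.2 ⟨mem_univ _, s2 ▸ hc'⟩) s1⟩
  have h1 : ∀ c, ∃ r, 0 < deg (E \ M) c → ¬ Good (E \ M) Prod.fst c → ¬ Rig E S M c →
      (r ∉ S ∧ Reach (E \ M) Prod.fst c r) ∧
        ∃ z, Reach (E \ M) Prod.fst c z ∧ z ∉ S ∧ Flex E M z ∧ z ≠ r := fun c => by
    by_cases hc : 0 < deg (E \ M) c ∧ ¬ Good (E \ M) Prod.fst c ∧ ¬ Rig E S M c
    · obtain ⟨z, z1, z2, z3⟩ : ∃ z, Reach (E \ M) Prod.fst c z ∧ z ∉ S ∧ Flex E M z := by
        by_contra m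
        exact hc.2.2 ⟨hc.1, hc.2.1, fun t a b f => m ⟨t, a, b, f⟩⟩
      obtain ⟨s, hs⟩ := pos_nb (reach_pos hy z1 hc.1)
      have s1 := h.toS (mem_sdiff.1 hs).1 z2
      have s2 := h.evS s1
      have s3 : 0 < deg (E \ M) s := deg_pos (hy _ hs)
      obtain ⟨r, r1, r2⟩ := exists_other (D := E \ M) (v := s) (by omega) z
      exact ⟨r, fun _ _ _ => ⟨⟨h.toT (mem_sdiff.1 r1).1 s1,
        (z1.trans (reach_adj hs)).trans (reach_adj r1)⟩, z, z1, z2, z3, r2.symm⟩⟩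
    · exact ⟨c, fun a b d => absurd ⟨a, b, d⟩ hc⟩
  choose r1 h1 using h1
  have hU : ∀ x, Rig E S M (rep x) → rep x ∈ univ.filter fun c => rep c = c ∧ Rig E S M c :=
    fun x hx => mem_filter.2 ⟨mem_univ _, hrr x, hx⟩
  refine ⟨fun x => if Rig E S M (rep x) then r0 (rep x) else r1 (rep x),
    fun x => if Rig E S M (rep x) then k0 (rep x) + 1 else 0, fun x y hxy => ?_,
    fun x a b => ?_, fun x a b => ?_, fun x s a b => ?_⟩
  · simp only [hcon x y hxy, and_self]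
  · split_ifs with e
    · exact ⟨(h0 _ (hU x e)).1.1, (hrep x).trans (h0 _ (hU x e)).1.2⟩
    · have := (h1 _ (reach_pos hy (hrep x) a) (h.bad b (hrep x)) e).1
      exact ⟨this.1, (hrep x).trans this.2⟩
  · split_ifs with e
    · exact Or.inl (h.rig e ((hrep x).symm hy))
    · obtain ⟨z, z1, z2⟩ := (h1 _ (reach_pos hy (hrep x) a) (h.bad b (hrep x)) e).2
      exact Or.inr ⟨z, (hrep x).trans z1, z2⟩
  · have b' := h.rig b (hrep s)
    beta_reduce at a ⊢
    rw [if_pos b']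
    split_ifs at a ⊢ with e
    · have := (h0 _ (hU x e)).2.2 _ (hU s b') ⟨s, a, rfl⟩
      omega
    · omega

/-- the small signs -/
structure Small (E : Finset (V × V)) (S : Finset V) (M : Finset (V × V)) (root : V → V)
    (ρ : V × V → ℤ) : Prop where
  sgn : Sgn (E \ M) ρ
  zero : ∀ s ∈ S, sm (E \ M) ρ s = 0
  val : ∀ t, t ∉ S → 0 < deg (E \ M) t →
    (deg (E \ M) t % 2 = 1 ∧ (sm (E \ M) ρ t = 1 ∨ sm (E \ M) ρ t = -1)) ∨
    (deg (E \ M) t % 2 = 0 ∧ (sm (E \ M) ρ t = 2 ∨ sm (E \ M) ρ t = -2)) ∨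
    (sm (E \ M) ρ t = 0 ∧ ¬ Good (E \ M) Prod.fst t ∧ root t = t)

variable {root : V → V} {rk : V → ℕ} {ρ : V × V → ℤ}

theorem Ctx.small (h : Ctx E S M) (hr : Roots E S M root rk) : ∃ ρ, Small E S M root ρ := by
  classical
  let ty : V → Fin 4 := fun v => if Odd (deg (E \ M) v) then 1 else
    if v ∈ S ∨ deg (E \ M) v = 0 then 0 else
      if ¬ Good (E \ M) Prod.fst v ∧ root v = v then 3 else 2
  have t1 : ∀ v, Odd (deg (E \ M) v) → ty v = 1 := fun v a => if_pos a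
  have t0 : ∀ v, ¬ Odd (deg (E \ M) v) → (v ∈ S ∨ deg (E \ M) v = 0) → ty v = 0 :=
    fun v a b => (if_neg a).trans (if_pos b)
  have t3 : ∀ v, ¬ Odd (deg (E \ M) v) → ¬ (v ∈ S ∨ deg (E \ M) v = 0) →
      (¬ Good (E \ M) Prod.fst v ∧ root v = v) → ty v = 3 :=
    fun v a b c => (if_neg a).trans ((if_neg b).trans (if_pos c))
  have t2 : ∀ v, ¬ Odd (deg (E \ M) v) → ¬ (v ∈ S ∨ deg (E \ M) v = 0) →
      ¬ (¬ Good (E \ M) Prod.fst v ∧ root v = v) → ty v = 2 :=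
    fun v a b c => (if_neg a).trans ((if_neg b).trans (if_neg c))
  obtain ⟨f, hf, hok⟩ := rho h.sysD ty (fun v => ⟨fun e => by
      by_contra a
      simp only [ty, if_neg a] at e
      split_ifs at e <;> exact absurd e (by decide), t1 v⟩) fun x hx => by
    by_cases hg : Good (E \ M) Prod.fst x
    · obtain ⟨z, z1, z2⟩ := hg
      exact ⟨z, z1, Or.inl (t1 z z2)⟩
    · have hp : 0 < deg (E \ M) x := hx.elim id fun e => by
        by_contra a
        have a' : deg (E \ M) x = 0 := by omega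
        rw [t0 x (by rw [a']; decide) (Or.inr a')] at e
        exact absurd e (by decide)
      obtain ⟨r1, r2⟩ := hr.mem x hp hg
      have r3 := reach_pos h.sysD.sy r2 hp
      have r4 := even_of hg r2
      exact ⟨_, r2, Or.inr (t3 _ (by rw [Nat.odd_iff]; omega) (fun m => m.elim r1 (by omega))
        ⟨h.bad hg r2, (hr.con _ _ r2).1.symm⟩)⟩
  refine ⟨f, hf, fun s hs => ?_, fun t ht hp => ?_⟩
  · have := h.evS hs
    exact (hok s).1 (t0 s (by rw [Nat.odd_iff]; omega) (Or.inl hs))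
  · by_cases a : Odd (deg (E \ M) t)
    · exact Or.inl ⟨Nat.odd_iff.1 a, (hok t).2.1 (t1 t a)⟩
    · have a' : deg (E \ M) t % 2 = 0 := by rw [Nat.odd_iff] at a; omega
      have b : ¬ (t ∈ S ∨ deg (E \ M) t = 0) := fun m => m.elim ht (by omega)
      by_cases c : ¬ Good (E \ M) Prod.fst t ∧ root t = t
      · rcases (hok t).2.2.2 (t3 t a b c) with e | e
        · exact Or.inr (Or.inr ⟨e, c⟩)
        · exact Or.inr (Or.inl ⟨a', e⟩)
      · exact Or.inr (Or.inl ⟨a', (hok t).2.2.1 (t2 t a b c)⟩)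

theorem Ctx.hole1 (h : Ctx E S M) (hr : Roots E S M root rk) (hs : Small E S M root ρ) {x : V}
    (hx : Rig E S M x) : ∃ p ∈ S, Reach (E \ M) Prod.fst x p ∧
      (sm (E \ M) ρ (root x) = 0 → (root x, p) ∉ E \ M) := by
  classical
  have hy := h.sysD.sy
  obtain ⟨r1, r2⟩ := hr.mem x hx.1 hx.2.1
  obtain ⟨s, s1⟩ := pos_nb (reach_pos hy r2 hx.1)
  have s2 := h.toS (mem_sdiff.1 s1).1 r1
  by_cases h0 : sm (E \ M) ρ (root x) = 0
  swap
  · exact ⟨s, s2, r2.trans (reach_adj s1), fun m => absurd m h0⟩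
  by_contra hno
  have hadj : ∀ p ∈ S, Reach (E \ M) Prod.fst x p → (root x, p) ∈ E \ M := fun p a b =>
    by_contra fun m => hno ⟨p, a, b, fun _ => m⟩
  let Z := univ.filter fun v => Reach (E \ M) Prod.fst x v
  have hZ : ∀ v, v ∈ Z ↔ Reach (E \ M) Prod.fst x v := fun v => by simp [Z]
  have hsum := dc2 hy h.bipD (fun a ha => (hs.sgn a ha).1) Z
    fun a ha m => (hZ _).2 (((hZ _).1 m).trans (reach_adj ha))
  rw [sum_eq_zero fun z hz => hs.zero z (mem_filter.1 hz).2] at hsum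
  have hrB : root x ∈ Z.filter (· ∉ S) := mem_filter.2 ⟨(hZ _).2 r2, r1⟩
  have h4 : (4 : ℤ) ∣ ∑ t ∈ (Z.filter (· ∉ S)).erase (root x), (sm (E \ M) ρ t + 2) :=
    dvd_sum fun t ht => by
      obtain ⟨t1, t2⟩ := mem_erase.1 ht
      obtain ⟨t3, t4⟩ := mem_filter.1 t2
      have t5 := (hZ _).1 t3
      have t6 := even_of hx.2.1 t5
      rcases hs.val t t4 (reach_pos hy t5 hx.1) with e | e | e
      · omega
      · omega
      · exact absurd (e.2.2.symm.trans (hr.con _ _ t5).1.symm) t1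
  have h5 := add_sum_erase _ (fun t => sm (E \ M) ρ t + 2) hrB
  rw [sum_add_distrib (s := Z.filter (· ∉ S)), ← hsum, sum_const] at h5
  simp only [nsmul_eq_mul, h0] at h5
  have h6 : nb (E \ M) s = Z.filter (· ∉ S) := by
    ext t
    rw [mem_nb, mem_filter, hZ]
    refine ⟨fun a => ⟨(r2.trans (reach_adj s1)).trans (reach_adj a),
      h.toT (mem_sdiff.1 a).1 s2⟩, fun ⟨a, b⟩ => ?_⟩
    have e : nb (E \ M) t = nb (E \ M) (root x) := eq_of_subset_of_card_le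
      (fun p hp => mem_nb.2 (hadj p (h.toS (mem_sdiff.1 (mem_nb.1 hp)).1 b)
        (a.trans (reach_adj (mem_nb.1 hp)))))
      (by rw [card_nb, card_nb, (h.rigT (h.rig hx a) b).1, (h.rigT (h.rig hx r2) r1).1])
    exact hy _ (mem_nb.1 (e ▸ mem_nb.2 s1))
  have h7 := card_nb (E \ M) s
  rw [h6] at h7
  have h8 := h.evS s2
  omega

/-- the holes of the rigid components -/
structure Holes (E : Finset (V × V)) (S : Finset V) (M : Finset (V × V)) (root : V → V)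
    (ρ : V × V → ℤ) (hole : V → V) : Prop where
  con : ∀ x y, Reach (E \ M) Prod.fst x y → hole x = hole y
  mem : ∀ x, Rig E S M x → hole x ∈ S ∧ Reach (E \ M) Prod.fst x (hole x) ∧
    (sm (E \ M) ρ (root x) = 0 → (root x, hole x) ∉ E \ M)

theorem Ctx.holes (h : Ctx E S M) (hr : Roots E S M root rk) (hs : Small E S M root ρ) :
    ∃ hole, Holes E S M root ρ hole := by
  obtain ⟨rep, hrep, hcon⟩ := rho_rep (nd := Prod.fst) h.sysD.sy
  choose! p hp using fun x (hx : Rig E S M x) => h.hole1 hr hs hx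
  refine ⟨fun x => p (rep x), fun x y hxy => by simp only [hcon x y hxy], fun x hx => ?_⟩
  obtain ⟨a, b, c⟩ := hp _ (h.rig hx (hrep x))
  rw [(hr.con _ _ (hrep x)).1]
  exact ⟨a, (hrep x).trans b, c⟩

end Pool.Agent.P.MP_0ad50f_co.BP
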