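import Pool.Agent.P.MP_0ad50f_co.EV.Main

/-! Bipartite graphs: tools. -/

namespace Pool.Agent.P.MP_0ad50f_co.BP

set_option linter.unusedSectionVars false

open Finset
open Pool.Agent.P.MP_0ad50f_co.D8
open Pool.Agent.P.MP_0ad50f_co.EV

section nodes
variable {V N : Type} [DecidableEq V] [DecidableEq N]

/-- double counting over a closed set of nodes of a bipartite system -/
theorem dc {D : Finset (V × V)} {nd : V × V → N} (hy : Sy D) (ε : N → ℤ)
    (hε : ∀ a ∈ D, ε (nd a.swap) = - ε (nd a)) {f : V × V → ℤ} (hf : ∀ a ∈ D, f a.swap = f a)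
    (Z : Finset N) (hZ : ∀ a ∈ D, nd a ∈ Z → nd a.swap ∈ Z) :
    ∑ z ∈ Z, ε z * sg D nd f z = 0 := by
  have h1 : ∑ z ∈ Z, ε z * sg D nd f z =
      ∑ a ∈ D.filter (fun a => nd a ∈ Z), ε (nd a) * f a := by
    rw [← sum_fiberwise_of_maps_to (s := D.filter fun a => nd a ∈ Z) (t := Z) (g := nd)
      (fun a ha => (mem_filter.1 ha).2)]
    refine sum_congr rfl fun z hz => ?_
    unfold sg
    rw [mul_sum]
    refine sum_congr ?_ fun a ha => by rw [(mem_filter.1 ha).2]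
    ext a
    simp only [mem_filter]
    exact ⟨fun h => ⟨⟨h.1, h.2 ▸ hz⟩, h.2⟩, fun h => ⟨h.1.1, h.2⟩⟩
  rw [h1]
  refine sum_involution (fun a _ => a.swap) (fun a ha => ?_) (fun a ha h0 e => h0 ?_)
    (fun a ha => ?_) (fun a _ => Prod.swap_swap a)
  · rw [hε a (mem_filter.1 ha).1, hf a (mem_filter.1 ha).1]
    ring
  · have h2 := hε a (mem_filter.1 ha).1
    rw [e] at h2
    have : ε (nd a) = 0 := by omega
    rw [this, zero_mul]
  · exact mem_filter.2 ⟨hy a (mem_filter.1 ha).1, hZ a (mem_filter.1 ha).1 (mem_filter.1 ha).2⟩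

/-- the sign lemma for bipartite systems: only nodes of type 2 need a root -/
theorem rho0 [Fintype N] {D : Finset (V × V)} {nd : V × V → N} (h : Sys D nd) (ε : N → ℤ)
    (hε : ∀ a ∈ D, ε (nd a.swap) = - ε (nd a)) (hε0 : ∀ x, ε x ≠ 0) (ty : N → Fin 4)
    (hpar : ∀ x, ty x = 1 ↔ Odd (dg D nd x))
    (hroot : ∀ x, ty x = 2 → ∃ z, Reach D nd x z ∧ (ty z = 1 ∨ ty z = 3)) :
    ∃ f : V × V → ℤ, Sgn D f ∧ ∀ x, Ok (ty x) (sg D nd f x) := by
  classical
  obtain ⟨rep, hrep, hcon⟩ := rho_rep (nd := nd) h.sy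
  let B : N → Prop := fun x => ¬ ∃ z, Reach D nd x z ∧ (ty z = 1 ∨ ty z = 3)
  have hB : ∀ x y, B x → Reach D nd x y → B y := fun x y hx hxy ⟨z, hz, hz'⟩ =>
    hx ⟨z, hxy.trans hz, hz'⟩
  have hB0 : ∀ x, B x → ty x = 0 := fun x hx => by
    have ht : ty x = 0 ∨ ty x = 2 ∨ ty x = 1 ∨ ty x = 3 :=
      (by decide : ∀ u : Fin 4, u = 0 ∨ u = 2 ∨ u = 1 ∨ u = 3) _
    rcases ht with e | e | e
    · exact e
    · exact absurd (hroot x e) hx
    · exact absurd ⟨x, Reach.refl _ _ _, e⟩ hx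
  let ty' : N → Fin 4 := fun x => if B x ∧ rep x = x then 3 else ty x
  have t3 : ∀ x, B x ∧ rep x = x → ty' x = 3 := fun x hx => if_pos hx
  have t0 : ∀ x, ¬ (B x ∧ rep x = x) → ty' x = ty x := fun x hx => if_neg hx
  obtain ⟨f, hf, hok⟩ := rho h ty' (fun x => by
      by_cases hx : B x ∧ rep x = x
      · rw [← hpar, t3 x hx, hB0 x hx.1]
        decide
      · rw [t0 x hx, hpar]) (fun x _ => by
      by_cases hx : B x
      · exact ⟨rep x, hrep x, Or.inr (t3 _ ⟨hB _ _ hx (hrep x), (hcon _ _ (hrep x)).symm⟩)⟩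
      · obtain ⟨z, hz, hz'⟩ := not_not.1 hx
        exact ⟨z, hz, by rwa [t0 z fun m => m.1 ⟨z, Reach.refl _ _ _, hz'⟩]⟩)
  refine ⟨f, hf, fun x => ?_⟩
  by_cases hx : B x ∧ rep x = x
  · have h1 := dc h.sy ε hε (fun a ha => (hf a ha).1) (univ.filter fun z => Reach D nd x z)
      fun a ha m => mem_filter.2 ⟨mem_univ _, (mem_filter.1 m).2.trans (Reach.dart nd ha)⟩
    rw [sum_eq_single_of_mem x (mem_filter.2 ⟨mem_univ _, Reach.refl _ _ _⟩) fun z hz hne => by
      have h2 := (mem_filter.1 hz).2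
      have h3 := hok z
      rw [t0 z fun m => hne (by rw [← m.2, ← hcon _ _ h2, hx.2]), hB0 z (hB _ _ hx.1 h2)] at h3
      rw [h3.1 rfl, mul_zero]] at h1
    rw [hB0 x hx.1, (mul_eq_zero.1 h1).resolve_left (hε0 x)]
    exact ⟨fun _ => rfl, fun e => absurd e (by decide), fun e => absurd e (by decide),
      fun _ => Or.inl rfl⟩
  · have := hok x
    rwa [t0 x hx] at this

end nodes

/-- signs chosen in the order of a rank function -/
theorem signs {ι : Type} (rk : ι → ℕ) (dep : ι → ι) (ok : ι → ℤ → ℤ → Prop)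
    (h1 : ∀ c y, (y = 1 ∨ y = -1) → ok c 1 y ∨ ok c (-1) y)
    (h2 : ∀ c, rk (dep c) < rk c ∨ ∀ x y, ok c x y) :
    ∃ s : ι → ℤ, ∀ c, (s c = 1 ∨ s c = -1) ∧ ok c (s c) (s (dep c)) := by
  classical
  let g : ι → ℤ → ℤ := fun c y => if ok c 1 y then 1 else -1
  have hg : ∀ c y, g c y = 1 ∨ g c y = -1 := fun c y => by
    simp only [g]; split_ifs <;> simp
  have hg' : ∀ c y, (y = 1 ∨ y = -1) → ok c (g c y) y := fun c y hy => by
    simp only [g]
    split_ifs with h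
    · exact h
    · exact (h1 c y hy).resolve_left h
  let s : ℕ → ι → ℤ := fun n => Nat.rec (fun _ => 1) (fun _ p c => g c (p (dep c))) n
  have hs : ∀ n c, s (n + 1) c = g c (s n (dep c)) := fun _ _ => rfl
  have hs1 : ∀ n c, s n c = 1 ∨ s n c = -1 := fun n c => by
    cases n with
    | zero => exact Or.inl rfl
    | succ n => exact hg _ _
  have hall : ∀ c, (∀ x y, ok c x y) → ∀ y, g c y = 1 := fun c h y => if_pos (h 1 y)
  have hst : ∀ k c, rk c ≤ k → ∀ n m, k < n → k < m → s n c = s m c := fun k => by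
    induction k using Nat.strong_induction_on with
    | _ k ih =>
    intro c hc n m hn hm
    obtain ⟨n, rfl⟩ : ∃ p, n = p + 1 := ⟨n - 1, by omega⟩
    obtain ⟨m, rfl⟩ : ∃ p, m = p + 1 := ⟨m - 1, by omega⟩
    rw [hs, hs]
    rcases h2 c with h | h
    · rw [ih (rk (dep c)) (by omega) (dep c) le_rfl n m (by omega) (by omega)]
    · rw [hall c h, hall c h]
  refine ⟨fun c => s (rk c + 1) c, fun c => ⟨hs1 (rk c + 1) c, ?_⟩⟩
  rcases h2 c with h | h
  · beta_reduce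
    rw [hs, hst (rk (dep c)) (dep c) le_rfl (rk (dep c) + 1) (rk c) (by omega) h]
    exact hg' _ _ (hs1 _ _)
  · exact h _ _

/-- roots and ranks by repeated removal -/
theorem ord {ι : Type} [DecidableEq ι] (P Q : ι → ι → Prop) (n : ℕ) : ∀ U0 : Finset ι,
    U0.card = n → (∀ U ⊆ U0, U.Nonempty → ∃ c ∈ U, ∃ t, P c t ∧ ∀ c' ∈ U, ¬ Q t c') →
    ∃ (root : ι → ι) (rk : ι → ℕ), ∀ c ∈ U0, P c (root c) ∧ rk c < n ∧
      ∀ c' ∈ U0, Q (root c) c' → rk c < rk c' := by
  induction n with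
  | zero =>
    intro U0 h0 _
    rw [card_eq_zero.1 h0]
    exact ⟨id, fun _ => 0, by simp⟩
  | succ n ih =>
    intro U0 h0 h
    obtain ⟨c0, hc0, t, hP, hQ⟩ := h U0 subset_rfl (card_pos.1 (by omega))
    obtain ⟨root, rk, hr⟩ := ih (U0.erase c0) (by rw [card_erase_of_mem hc0]; omega)
      fun U hU => h U (hU.trans (erase_subset _ _))
    refine ⟨Function.update root c0 t, Function.update rk c0 n, fun c hc => ?_⟩
    by_cases e : c = c0
    · subst e
      simp only [Function.update_self]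
      exact ⟨hP, by omega, fun c' hc' q => absurd q (hQ c' hc')⟩
    · obtain ⟨a1, a2, a3⟩ := hr c (mem_erase.2 ⟨e, hc⟩)
      simp only [Function.update_of_ne e]
      refine ⟨a1, by omega, fun c' hc' q => ?_⟩
      by_cases e' : c' = c0
      · subst e'
        rwa [Function.update_self]
      · rw [Function.update_of_ne e']
        exact a3 c' (mem_erase.2 ⟨e', hc'⟩) q

variable {V : Type} [Fintype V] [DecidableEq V]

/-- neighbours -/
def nb (D : Finset (V × V)) (v : V) : Finset V := univ.filter fun w => (v, w) ∈ D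

theorem mem_nb {D : Finset (V × V)} {v w : V} : w ∈ nb D v ↔ (v, w) ∈ D := by simp [nb]

theorem card_nb (D : Finset (V × V)) (v : V) : (nb D v).card = deg D v := by
  refine card_bij (fun w _ => (v, w)) (fun w hw => mem_filter.2 ⟨mem_nb.1 hw, rfl⟩)
    (fun _ _ _ _ e => (Prod.mk.inj e).2) fun a ha => ?_
  obtain ⟨h1, rfl⟩ := mem_filter.1 ha
  exact ⟨a.2, mem_nb.2 h1, rfl⟩

theorem two_nb {K : Finset (V × V)} {v : V} (w : V) (p : Prop) (h : 2 ≤ deg K v)
    (h' : p → 3 ≤ deg K v) :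
    ∃ x y, x ≠ y ∧ (v, x) ∈ K ∧ (v, y) ∈ K ∧ (p → x ≠ w ∧ y ≠ w) := by
  rw [← card_nb] at h h'
  by_cases hp : p
  · have h1 := h' hp
    have h2 := pred_card_le_card_erase (s := nb K v) (a := w)
    obtain ⟨x, hx, y, hy, hne⟩ := one_lt_card.1 (by omega : 1 < ((nb K v).erase w).card)
    rw [mem_erase, mem_nb] at hx hy
    exact ⟨x, y, hne, hx.2, hy.2, fun _ => ⟨hx.1, hy.1⟩⟩
  · obtain ⟨x, hx, y, hy, hne⟩ := one_lt_card.1 (by omega : 1 < (nb K v).card)
    exact ⟨x, y, hne, mem_nb.1 hx, mem_nb.1 hy, fun m => absurd m hp⟩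

theorem pos_nb {D : Finset (V × V)} {v : V} (h : 0 < deg D v) : ∃ w, (v, w) ∈ D := by
  obtain ⟨a, ha, rfl⟩ := dg_pos.1 h
  exact ⟨a.2, ha⟩

theorem reach_pos {D : Finset (V × V)} (hy : Sy D) {x y : V} (h : Reach D Prod.fst x y)
    (hx : 0 < deg D x) : 0 < deg D y := by
  by_contra h0
  have e := rho_reach_eq hy h (by simpa using h0)
  exact h0 (e ▸ hx)

theorem reach_adj {D : Finset (V × V)} {x y : V} (h : (x, y) ∈ D) : Reach D Prod.fst x y :=
  Reach.dart Prod.fst h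

theorem even_of {D : Finset (V × V)} {x y : V} (hx : ¬ Good D Prod.fst x)
    (h : Reach D Prod.fst x y) : deg D y % 2 = 0 := by
  by_contra h0
  exact hx ⟨y, h, Nat.odd_iff.2 (by simpa using h0)⟩

/-- double counting between the two sides of a closed vertex set -/
theorem dc2 {D : Finset (V × V)} (hy : Sy D) {S : Finset V} (hb : ∀ a ∈ D, a.1 ∈ S ↔ a.2 ∉ S)
    {f : V × V → ℤ} (hf : ∀ a ∈ D, f a.swap = f a) (Z : Finset V)
    (hZ : ∀ a ∈ D, a.1 ∈ Z → a.2 ∈ Z) :
    ∑ z ∈ Z.filter (· ∈ S), sm D f z = ∑ z ∈ Z.filter (· ∉ S), sm D f z := by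
  have h1 := dc (nd := Prod.fst) hy (fun v => if v ∈ S then 1 else -1) (fun a ha => by
    have := hb a ha
    by_cases h : a.1 ∈ S
    · simp [h, this.1 h]
    · have h2 : a.2 ∈ S := by_contra fun m => h (this.2 m)
      simp [h, h2]) hf Z hZ
  rw [← sum_filter_add_sum_filter_not Z (· ∈ S),
    sum_congr rfl fun z hz => by rw [if_pos (mem_filter.1 hz).2, one_mul],
    sum_congr (s₁ := Z.filter fun x => ¬ x ∈ S) rfl fun z hz => by
      rw [if_neg (mem_filter.1 hz).2, neg_one_mul], sum_neg_distrib] at h1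
  exact add_neg_eq_zero.1 h1

end Pool.Agent.P.MP_0ad50f_co.BP
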